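import Mathlib
import Pool.Agent.TH497.PW.IntFlow
import Pool.Agent.TH362.FP.Pos
import Pool.Agent.Q165.IC.Main

/-!
# Graphs whose induced circuits have at most nineteen edges (MP_c8786f_co)

Let `G` be a bridgeless multigraph such that all induced circuits (of the underlying simple graph)
have at most 19 edges.  Then `G` has a nowhere-zero 5-flow, and the characteristic polynomial of its
bond matroid is positive at all integers `q ≥ 5`.  In particular this holds for all graphs without
an induced path with 19 vertices (for example for cographs), for chordal and weakly chordal graphs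
and for graphs without asteroidal triples.  The same conclusions hold if for some set `S` of at most
31 vertices all induced circuits of `G - S` have at most eleven edges.  The degrees, the
connectivity, the treewidth and the order are arbitrary.

Proof.  An induced circuit of a contraction `G / e` is not longer than some induced circuit of `G`,
so that the class is closed under contractions (not under deletions).  Let `G` be a counterexample
with as few edges as possible; it has girth at least twelve, and all degrees are at least three
(apart from isolated vertices) by the library `Y335/FL` of the starting files.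

(1) Take a longest induced path `p_0, p_1, ..., p_n` of `G` and two neighbours `x ≠ y` of `p_0`
which are not `p_1`.  As the path cannot be prolonged by `x` or `y`, there are smallest indices
`a, b ≥ 1` with `x p_a, y p_b ∈ E`.  The induced circuits `x p_0 ... p_a` and `y p_0 ... p_b` give
`a, b ≥ 10`, and the circuit `p_0 x p_a ... p_b y` gives `|a - b| ≥ 8`.  So `b ≥ 18`, say, and
`y p_0 ... p_b` is an induced circuit with at least 20 edges.

(2) If all induced circuits of `G - S` have at most eleven edges, then `G - S` is a forest, and a
count of edges (at a vertex of degree `d` in `S` there are at least `62 d` edges at distance at most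
four from its neighbours) gives a contradiction for `|S| ≤ 31`.
-/

set_option autoImplicit false

namespace Pool.Agent.Results.MP_c8786f_co.ShortInducedCircuits

open Pool.Agent.TH497.PW

variable {V E : Type}

/-- The edges with exactly one end in `X`. -/
def boundary [DecidableEq V] [Fintype E] (src dst : E → V) (X : Finset V) : Finset E :=
  Finset.univ.filter (fun e => ¬ (src e ∈ X ↔ dst e ∈ X))

/-- Kirchhoff's law. -/
def IsFlow [DecidableEq V] [Fintype E] (src dst : E → V) (f : E → ℤ) : Prop :=
  ∀ v : V, ∑ e ∈ Finset.univ.filter (fun e => src e = v), f e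
    = ∑ e ∈ Finset.univ.filter (fun e => dst e = v), f e

/-- There is an edge between `x` and `y`, and `x ≠ y`. -/
def Adjacent (src dst : E → V) (x y : V) : Prop :=
  x ≠ y ∧ ∃ e, (src e = x ∧ dst e = y) ∨ (src e = y ∧ dst e = x)

/-- The vertices `z 0, ..., z (k + 2)` form an induced circuit of length `k + 3` (the indices are
taken modulo `k + 3`): they are different, consecutive ones are adjacent, and there are no other
adjacencies. -/
structure InducedCircuit (src dst : E → V) (k : ℕ) (z : Fin (k + 3) → V) : Prop where
  inj : Function.Injective z
  adj : ∀ i, Adjacent src dst (z i) (z (i + 1))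
  ind : ∀ i j, Adjacent src dst (z i) (z j) → j = i + 1 ∨ i = j + 1

/-- The number of the components of the graph with the vertices `V` and the edges `A`. -/
noncomputable def components (src dst : E → V) (A : Finset E) : ℕ :=
  Nat.card (SimpleGraph.fromRel
    (fun u v : V => ∃ e ∈ A, src e = u ∧ dst e = v)).ConnectedComponent

/-- The rank of `A` in the cycle matroid of the graph. -/
noncomputable def cycleRank [Fintype V] (src dst : E → V) (A : Finset E) : ℕ :=
  Fintype.card V - components src dst A

/-- The rank of `A` in the bond matroid of the graph (the dual of the cycle matroid). -/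
noncomputable def bondRank [Fintype V] [Fintype E] [DecidableEq E] (src dst : E → V)
    (A : Finset E) : ℕ :=
  A.card + cycleRank src dst Aᶜ - cycleRank src dst Finset.univ

/-- The characteristic polynomial of the bond matroid at the integer `x`. -/
noncomputable def bondCharPoly [Fintype V] [Fintype E] [DecidableEq E] (src dst : E → V)
    (x : ℤ) : ℤ :=
  ∑ A : Finset E, (-1) ^ A.card * x ^ (bondRank src dst Finset.univ - bondRank src dst A)

theorem isFlow_iff [DecidableEq V] [Fintype E] (src dst : E → V) (f : E → ℤ) :
    IsFlow src dst f ↔
      ∀ v, ∑ e, f e * ((if src e = v then 1 else 0) - (if dst e = v then 1 else 0)) = 0 := by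
  unfold IsFlow
  refine forall_congr' fun v => ?_
  rw [Finset.sum_filter, Finset.sum_filter, ← sub_eq_zero, ← Finset.sum_sub_distrib]
  have : ∀ e, (if src e = v then f e else 0) - (if dst e = v then f e else 0)
      = f e * ((if src e = v then 1 else 0) - (if dst e = v then 1 else 0)) := by
    intro e
    by_cases h1 : src e = v <;> by_cases h2 : dst e = v <;> simp [h1, h2]
  rw [Finset.sum_congr rfl (fun e _ => this e)]

theorem nzf [Fintype V] [DecidableEq V] [Fintype E] [DecidableEq E] (src dst : E → V)
    (h : Pool.Agent.TH676.Z.FlowOn src dst ∅ ∅) : NZF src dst := by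
  obtain ⟨f, h1, _, h3⟩ := h
  refine ⟨f, fun e => h3 e (Finset.notMem_empty _) (Finset.notMem_empty _), fun x => ?_⟩
  rw [← h1 x]
  unfold Pool.Agent.TH676.Z.bd
  refine Finset.sum_congr rfl fun e _ => ?_
  unfold ic
  by_cases h4 : src e = x <;> by_cases h5 : dst e = x <;> simp [h4, h5]

theorem charPoly_pos [Fintype V] [DecidableEq V] [Fintype E] [DecidableEq E] (src dst : E → V)
    (f : E → ℤ) (h1 : IsFlow src dst f) (h2 : ∀ e, 1 ≤ |f e| ∧ |f e| ≤ 4) (q : ℕ) (hq : 5 ≤ q) :
    0 < bondCharPoly src dst q :=
  Pool.Agent.TH362.FP.chr_pos src dst f h2 h1 q hq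

/-- **Theorem.** See the claim file. -/
theorem result :
    ∀ (V E : Type) [Fintype V] [DecidableEq V] [Fintype E] [DecidableEq E] (src dst : E → V)
      (S : Finset V) (l : ℕ), (S.card = 0 ∧ l ≤ 19) ∨ (S.card ≤ 31 ∧ l ≤ 11) →
      (∀ (k : ℕ) (z : Fin (k + 3) → V), InducedCircuit src dst k z → (∀ i, z i ∉ S) → k + 3 ≤ l) →
      (∀ Y : Finset V, (boundary src dst Y).card ≠ 1) →
      (∃ f : E → ℤ, IsFlow src dst f ∧ ∀ e, 1 ≤ |f e| ∧ |f e| ≤ 4) ∧
      ∀ q : ℕ, 5 ≤ q → 0 < bondCharPoly src dst q := by
  intro V E _ _ _ _ src dst S l hSl hc hb
  have hfl := Pool.Agent.Q165.IC.flowI hSl src dst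
    ⟨S, le_rfl, fun m z hz hzS => hc m z ⟨hz.inj, hz.adj, hz.ind⟩ hzS⟩
    (fun Y _ => by rw [Finset.sdiff_empty]; exact hb Y)
  obtain ⟨G, hG, hG0⟩ := int_flow src dst (nzf src dst hfl)
  have hG1 := (isFlow_iff src dst G).mpr hG0
  exact ⟨⟨G, hG1, hG⟩, fun q hq => charPoly_pos src dst G hG1 hG q hq⟩

end Pool.Agent.Results.MP_c8786f_co.ShortInducedCircuits
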