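import Mathlib
import Pool.Agent.TH497.PW.IntFlow
import Pool.Agent.TH362.FP.Pos
import Pool.Agent.Q114.SW.Main

/-!
# Graphs of small sim-width or maximum matching width (MP_c8786f_co)

Let `t` be a binary tree whose leaves are labelled by the vertices of a bridgeless multigraph `G`,
and suppose that for every subtree the cut `(A, V \ A)`, where `A` is the set of the labels of the
subtree, contains no matching with 17 edges or no induced matching with 7 edges (induced in the
whole graph `G`).  Then `G` has a nowhere-zero 5-flow, and the characteristic polynomial of its bond
matroid is positive at all integers `q ≥ 5`.  In particular this holds for all bridgeless graphs of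
sim-width at most 6 (hence of mim-width, rank-width or clique-width at most 6) and for all
bridgeless graphs of maximum matching width at most 16 (hence of branchwidth at most 16).  The
degrees, the connectivity, the treewidth and the order of the graphs are arbitrary.

Proof.  Consider all quotients of `G` whose classes are connected sets of vertices.  A quotient
without a nowhere-zero 5-flow which is minimal for contractions has girth at least twelve, and all
degrees are at least three (apart from isolated vertices) by the library `Y335/FL` of the starting
files; it has at least 126 vertices of positive degree.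

(1) A matching across a cut of the quotient lifts to a matching across the cut of `G` with the same
labels, and an induced one lifts to an induced one.  In a graph of girth at least twelve every
matching with 17 edges contains an induced matching with 7 edges: among `n` edges of a matching,
`8 ≤ n ≤ 17`, some edge is joined to at most two others, as otherwise the `2 n` ends induce at least
`5 n / 2` edges, too many for girth twelve.  So no cut of the quotient has a matching with 17 edges.

(2) In a graph of girth at least twelve every set of 21 to 79 vertices of degree at least three has
at least 17 outer neighbours.  This follows from the Moore bound for irregular graphs (Alon, Hoory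
and Linial) for the smaller sets and from a new linear Moore bound for the larger sets: a graph of
girth at least twelve with `n` vertices and `m` edges, and with `D` vertices of degree one or two,
satisfies `126 m ≤ n m + 258 D`.

(3) By the theorem of Kőnig and Hall and (2), if the set `A` of the labels of a subtree has at most
72 elements (vertices of positive degree of the quotient), then it has at most 36 elements: all but
at most 16 of them form a set with at most 16 outer neighbours.  By induction all sets of labels
have at most 36 elements, a contradiction.
-/

set_option autoImplicit false

namespace Pool.Agent.Results.MP_c8786f_co.SimWidth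

open Pool.Agent.TH497.PW Pool.Agent.Q114.SW

variable {V E : Type}

/-- The edges with exactly one end in `X`. -/
def boundary [DecidableEq V] [Fintype E] (src dst : E → V) (X : Finset V) : Finset E :=
  Finset.univ.filter (fun e => ¬ (src e ∈ X ↔ dst e ∈ X))

/-- Kirchhoff's law. -/
def IsFlow [DecidableEq V] [Fintype E] (src dst : E → V) (f : E → ℤ) : Prop :=
  ∀ v : V, ∑ e ∈ Finset.univ.filter (fun e => src e = v), f e
    = ∑ e ∈ Finset.univ.filter (fun e => dst e = v), f e

/-- The number of the components of the graph with the vertices `V` and the edges `A`. -/
noncomputable def components (src dst : E → V) (A : Finset E) : ℕ :=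
  Nat.card (SimpleGraph.fromRel
    (fun u v : V => ∃ e ∈ A, src e = u ∧ dst e = v)).ConnectedComponent

/-- The rank of `A` in the cycle matroid of the graph. -/
noncomputable def cycleRank [Fintype V] (src dst : E → V) (A : Finset E) : ℕ :=
  Fintype.card V - components src dst A

/-- The rank of `A` in the bond matroid of the graph (the dual of the cycle matroid). -/
noncomputable def bondRank [Fintype V] [Fintype E] [DecidableEq E] (src dst : E → V)
    (A : Finset E) : ℕ :=
  A.card + cycleRank src dst Aᶜ - cycleRank src dst Finset.univ

/-- The characteristic polynomial of the bond matroid at the integer `x`. -/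
noncomputable def bondCharPoly [Fintype V] [Fintype E] [DecidableEq E] (src dst : E → V)
    (x : ℤ) : ℤ :=
  ∑ A : Finset E, (-1) ^ A.card * x ^ (bondRank src dst Finset.univ - bondRank src dst A)

theorem isFlow_iff [DecidableEq V] [Fintype E] (src dst : E → V) (f : E → ℤ) :
    IsFlow src dst f ↔
      ∀ v, ∑ e, f e * ((if src e = v then 1 else 0) - (if dst e = v then 1 else 0)) = 0 := by
  unfold IsFlow
  refine forall_congr' fun v => ?_
  rw [Finset.sum_filter, Finset.sum_filter, ← sub_eq_zero, ← Finset.sum_sub_distrib]
  have : ∀ e, (if src e = v then f e else 0) - (if dst e = v then f e else 0)
      = f e * ((if src e = v then 1 else 0) - (if dst e = v then 1 else 0)) := by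
    intro e
    by_cases h1 : src e = v <;> by_cases h2 : dst e = v <;> simp [h1, h2]
  rw [Finset.sum_congr rfl (fun e _ => this e)]

theorem nzf [Fintype V] [DecidableEq V] [Fintype E] [DecidableEq E] (src dst : E → V)
    (h : Pool.Agent.TH676.Z.FlowOn src dst ∅ ∅) : NZF src dst := by
  obtain ⟨f, h1, _, h3⟩ := h
  refine ⟨f, fun e => h3 e (Finset.notMem_empty _) (Finset.notMem_empty _), fun x => ?_⟩
  rw [← h1 x]
  unfold Pool.Agent.TH676.Z.bd
  refine Finset.sum_congr rfl fun e _ => ?_
  unfold ic
  by_cases h4 : src e = x <;> by_cases h5 : dst e = x <;> simp [h4, h5]

theorem charPoly_pos [Fintype V] [DecidableEq V] [Fintype E] [DecidableEq E] (src dst : E → V)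
    (f : E → ℤ) (h1 : IsFlow src dst f) (h2 : ∀ e, 1 ≤ |f e| ∧ |f e| ≤ 4) (q : ℕ) (hq : 5 ≤ q) :
    0 < bondCharPoly src dst q :=
  Pool.Agent.TH362.FP.chr_pos src dst f h2 h1 q hq

/-- **Theorem.** Let `G` be a finite multigraph without cuts of size one and `t` a binary tree whose
leaves are labelled by vertices, such that every vertex is a label.  Suppose that for the set `A` of
the labels of every subtree there is no matching with 17 edges between `A` and the other vertices,
or no induced matching with 7 edges between `A` and the other vertices.  Then `G` has a nowhere-zero
5-flow, and the characteristic polynomial of its bond matroid is positive at all integers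
`q ≥ 5`. -/
theorem result :
    ∀ (V E : Type) [Fintype V] [DecidableEq V] [Fintype E] [DecidableEq E] (src dst : E → V)
      (t : Layout V), t.labels = Finset.univ → t.All (Small src dst) →
      (∀ Y : Finset V, (boundary src dst Y).card ≠ 1) →
      (∃ f : E → ℤ, IsFlow src dst f ∧ ∀ e, 1 ≤ |f e| ∧ |f e| ≤ 4) ∧
      ∀ q : ℕ, 5 ≤ q → 0 < bondCharPoly src dst q := by
  intro V E _ _ _ _ src dst t ht hsm hb
  have hfl := Pool.Agent.Q114.SW.flowS src dst
    (fun Y _ => by rw [Finset.sdiff_empty]; exact hb Y) t ht hsm
  obtain ⟨G, hG, hG0⟩ := int_flow src dst (nzf src dst hfl)
  have hG1 := (isFlow_iff src dst G).mpr hG0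
  exact ⟨⟨G, hG1, hG⟩, fun q hq => charPoly_pos src dst G hG1 hG q hq⟩

end Pool.Agent.Results.MP_c8786f_co.SimWidth
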