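import Mathlib
import Pool.Agent.TH497.PW.IntFlow
import Pool.Agent.TH362.FP.Pos
import Pool.Agent.Q164.VT.Cyc

set_option autoImplicit false

/-!
# Nowhere-zero 5-flows in vertex-transitive and edge-transitive graphs (MP_c8786f_co)

Let `G` be a finite connected simple graph with a vertex-transitive automorphism group and degree
`d ≥ 3`.  If `d = 3`, assume that `G` has a circuit with at least one and at most eleven edges which
are not in triangles (or that all edges are in triangles); if `G` has no triangles, this says that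
the girth is at most eleven.  Then `G` has a nowhere-zero 5-flow, and the characteristic polynomial
of the bond matroid of `G` is positive at all integers `q ≥ 5`.  The same holds for all
edge-transitive simple graphs with a circuit with at most eleven edges.

Proof.  (1) Uncrossing: let `A` be a smallest vertex set with `2 ≤ |A|, |V - A|` whose boundary has
`k ≤ 3` edges, `k` as small as possible.  Two images of `A` under automorphisms are equal or disjoint
(otherwise `|A| = 2` and `k = d = 3`, against parity).  Hence the stabiliser of `A` is transitive on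
`A`, and `|A| ≤ k ≤ 3`; counting edges shows that `d = 3` and that `A` is a triangle.  So in
triangle-free cubic graphs, and in graphs of degree at least four, all edge cuts with at most three
edges isolate a vertex.

(2) Let `F` be the union of all circuits with at most eleven edges outside triangles.  If `d = 3` and
there are triangles, then `F` contains all edges; otherwise every edge cut which avoids `F` has at
least four edges.  The quotient `G / F` has a nowhere-zero 5-flow, and it is lifted to `G` by the
library `Y335/FL` of the starting files (circuits with at most eleven new edges).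
-/

namespace Pool.Agent.Results.MP_c8786f_co.TransitiveGraphs

open Pool.Agent.TH497.PW

variable {V E : Type}

/-- The edges with exactly one end in `X`. -/
def boundary [DecidableEq V] [Fintype E] (src dst : E → V) (X : Finset V) : Finset E :=
  Finset.univ.filter (fun e => ¬ (src e ∈ X ↔ dst e ∈ X))

/-- Kirchhoff's law. -/
def IsFlow [DecidableEq V] [Fintype E] (src dst : E → V) (f : E → ℤ) : Prop :=
  ∀ v : V, ∑ e ∈ Finset.univ.filter (fun e => src e = v), f e
    = ∑ e ∈ Finset.univ.filter (fun e => dst e = v), f e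

/-- `C` is an edge-disjoint union of circuits: the support of a flow with values in `{0, 1, -1}`. -/
def IsCycle [DecidableEq V] [Fintype E] (src dst : E → V) (C : Finset E) : Prop :=
  ∃ z : E → ℤ, IsFlow src dst z ∧ (∀ e, z e = 0 ∨ z e = 1 ∨ z e = -1) ∧ ∀ e, z e ≠ 0 ↔ e ∈ C

/-- There is an edge between `x` and `y`. -/
def Adjacent (src dst : E → V) (x y : V) : Prop :=
  ∃ e, (src e = x ∧ dst e = y) ∨ (src e = y ∧ dst e = x)

/-- `σ` is an automorphism of the (simple) graph. -/
def IsAutomorphism (src dst : E → V) (σ : Equiv.Perm V) : Prop :=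
  ∀ u v, Adjacent src dst u v ↔ Adjacent src dst (σ u) (σ v)

/-- The edge `e` is in a triangle. -/
def InTriangle (src dst : E → V) (e : E) : Prop :=
  ∃ c, Adjacent src dst (src e) c ∧ Adjacent src dst (dst e) c

/-- The number of the components of the graph with the vertices `V` and the edges `A`. -/
noncomputable def components (src dst : E → V) (A : Finset E) : ℕ :=
  Nat.card (SimpleGraph.fromRel
    (fun u v : V => ∃ e ∈ A, src e = u ∧ dst e = v)).ConnectedComponent

/-- The rank of `A` in the cycle matroid of the graph. -/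
noncomputable def cycleRank [Fintype V] (src dst : E → V) (A : Finset E) : ℕ :=
  Fintype.card V - components src dst A

/-- The rank of `A` in the bond matroid of the graph (the dual of the cycle matroid). -/
noncomputable def bondRank [Fintype V] [Fintype E] [DecidableEq E] (src dst : E → V)
    (A : Finset E) : ℕ :=
  A.card + cycleRank src dst Aᶜ - cycleRank src dst Finset.univ

/-- The characteristic polynomial of the bond matroid at the integer `x`. -/
noncomputable def bondCharPoly [Fintype V] [Fintype E] [DecidableEq E] (src dst : E → V)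
    (x : ℤ) : ℤ :=
  ∑ A : Finset E, (-1) ^ A.card * x ^ (bondRank src dst Finset.univ - bondRank src dst A)

theorem isFlow_iff [DecidableEq V] [Fintype E] (src dst : E → V) (f : E → ℤ) :
    IsFlow src dst f ↔
      ∀ v, ∑ e, f e * ((if src e = v then 1 else 0) - (if dst e = v then 1 else 0)) = 0 := by
  unfold IsFlow
  refine forall_congr' fun v => ?_
  rw [Finset.sum_filter, Finset.sum_filter, ← sub_eq_zero, ← Finset.sum_sub_distrib]
  have : ∀ e, (if src e = v then f e else 0) - (if dst e = v then f e else 0)
      = f e * ((if src e = v then 1 else 0) - (if dst e = v then 1 else 0)) := by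
    intro e
    by_cases h1 : src e = v <;> by_cases h2 : dst e = v <;> simp [h1, h2]
  rw [Finset.sum_congr rfl (fun e _ => this e)]

theorem nzf [Fintype V] [DecidableEq V] [Fintype E] [DecidableEq E] (src dst : E → V)
    (h : Pool.Agent.TH676.Z.FlowOn src dst ∅ ∅) : NZF src dst := by
  obtain ⟨f, h1, _, h3⟩ := h
  refine ⟨f, fun e => h3 e (Finset.notMem_empty _) (Finset.notMem_empty _), fun x => ?_⟩
  rw [← h1 x]
  unfold Pool.Agent.TH676.Z.bd
  refine Finset.sum_congr rfl fun e _ => ?_
  unfold ic
  by_cases h4 : src e = x <;> by_cases h5 : dst e = x <;> simp [h4, h5]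

theorem charPoly_pos [Fintype V] [DecidableEq V] [Fintype E] [DecidableEq E] (src dst : E → V)
    (f : E → ℤ) (h1 : IsFlow src dst f) (h2 : ∀ e, 1 ≤ |f e| ∧ |f e| ≤ 4) (q : ℕ) (hq : 5 ≤ q) :
    0 < bondCharPoly src dst q :=
  Pool.Agent.TH362.FP.chr_pos src dst f h2 h1 q hq

/-- the reduction modulo five of a flow with values in `{0, 1, -1}` -/
theorem mod5 [Fintype V] [DecidableEq V] [Fintype E] [DecidableEq E] (src dst : E → V)
    (C : Finset E) (h : ∃ z : E → ℤ, IsFlow src dst z ∧ (∀ e, z e = 0 ∨ z e = 1 ∨ z e = -1) ∧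
      ∀ e, z e ≠ 0 ↔ e ∈ C) :
    ∃ z : E → ZMod 5, (∀ v, Pool.Agent.TH676.Z.bd src dst z v = 0) ∧
      (∀ e, z e = 0 ∨ z e = 1 ∨ z e = -1) ∧ ∀ e, z e ≠ 0 ↔ e ∈ C := by
  obtain ⟨z, h1, h2, h3⟩ := h
  refine ⟨fun e => ((z e : ℤ) : ZMod 5), fun v => ?_, fun e => ?_, fun e => ?_⟩
  · have h4 := h1 v
    rw [Finset.sum_filter, Finset.sum_filter, ← sub_eq_zero, ← Finset.sum_sub_distrib] at h4
    have h5 := congrArg (fun t : ℤ => (t : ZMod 5)) h4
    simp only [Int.cast_sum, Int.cast_sub, Int.cast_zero] at h5
    refine Eq.trans ?_ h5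
    unfold Pool.Agent.TH676.Z.bd
    rw [Finset.sum_sub_distrib, Finset.sum_sub_distrib]
    congr 1 <;>
    · refine Finset.sum_congr rfl fun e _ => ?_
      split_ifs <;> simp
  · rcases h2 e with h | h | h <;> simp [h]
  · rw [← h3 e]
    have h10 : (1 : ZMod 5) ≠ 0 := by decide
    rcases h2 e with h | h | h <;> simp [h, h10]

theorem concl [Fintype V] [DecidableEq V] [Fintype E] [DecidableEq E] (src dst : E → V)
    (hfl : Pool.Agent.TH676.Z.FlowOn src dst ∅ ∅) :
    (∃ f : E → ℤ, IsFlow src dst f ∧ ∀ e, 1 ≤ |f e| ∧ |f e| ≤ 4) ∧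
      ∀ q : ℕ, 5 ≤ q → 0 < bondCharPoly src dst q := by
  obtain ⟨F, hF, hF0⟩ := int_flow src dst (nzf src dst hfl)
  have hF1 := (isFlow_iff src dst F).mpr hF0
  exact ⟨⟨F, hF1, hF⟩, fun q hq => charPoly_pos src dst F hF1 hF q hq⟩

open Classical in
/-- **Theorem.** See the claim file. -/
theorem result :
    (∀ (V E : Type) [Fintype V] [DecidableEq V] [Fintype E] [DecidableEq E] (src dst : E → V)
      (d : ℕ), (∀ e, src e ≠ dst e) → (∀ e e', s(src e, dst e) = s(src e', dst e') → e = e') →
      (∀ X : Finset V, X.Nonempty → X ≠ Finset.univ → (boundary src dst X).Nonempty) →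
      (∀ v, (Finset.univ.filter (fun e => src e = v ∨ dst e = v)).card = d) → 3 ≤ d →
      (∀ x y, ∃ σ : Equiv.Perm V, IsAutomorphism src dst σ ∧ σ x = y) →
      (d = 3 → (∀ e, InTriangle src dst e) ∨ ∃ C, IsCycle src dst C ∧
        (∃ e ∈ C, ¬ InTriangle src dst e) ∧
        (C.filter (fun e => ¬ InTriangle src dst e)).card ≤ 11) →
      (∃ f : E → ℤ, IsFlow src dst f ∧ ∀ e, 1 ≤ |f e| ∧ |f e| ≤ 4) ∧
      ∀ q : ℕ, 5 ≤ q → 0 < bondCharPoly src dst q) ∧
    (∀ (V E : Type) [Fintype V] [DecidableEq V] [Fintype E] [DecidableEq E] (src dst : E → V),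
      (∀ e, src e ≠ dst e) → (∀ e e', s(src e, dst e) = s(src e', dst e') → e = e') →
      (∀ e e', ∃ σ : Equiv.Perm V, IsAutomorphism src dst σ ∧
        s(σ (src e), σ (dst e)) = s(src e', dst e')) →
      (∃ C, IsCycle src dst C ∧ C.Nonempty ∧ C.card ≤ 11) →
      (∃ f : E → ℤ, IsFlow src dst f ∧ ∀ e, 1 ≤ |f e| ∧ |f e| ≤ 4) ∧
      ∀ q : ℕ, 5 ≤ q → 0 < bondCharPoly src dst q) := by
  constructor
  · intro V E _ _ _ _ src dst d hl hs hc hr hd ht hC
    refine concl src dst (Pool.Agent.Q164.VT.flow_VT (d := d) ⟨hl, hs, hc, hr, ht⟩ hd ?_)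
    intro hd3
    rcases hC hd3 with h | ⟨C, h1, h2, h3⟩
    · exact Or.inl h
    · refine Or.inr ⟨C, mod5 src dst C h1, h2, ?_⟩
      refine le_trans (Finset.card_le_card ?_) h3
      intro e he
      rw [Finset.mem_sdiff] at he
      rw [Finset.mem_filter]
      exact ⟨he.1, fun h4 => he.2 (Pool.Agent.Q164.VT.mem_TT.2 h4)⟩
  · intro V E _ _ _ _ src dst hl hs ht hC
    obtain ⟨C, h1, h2, h3⟩ := hC
    exact concl src dst (Pool.Agent.Q164.VT.flow_ET hl hs ht (mod5 src dst C h1) h2 h3)

end Pool.Agent.Results.MP_c8786f_co.TransitiveGraphs
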