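import Mathlib
import Pool.Agent.TH497.PW.IntFlow
import Pool.Agent.TH362.FP.Pos
import Pool.Agent.Q165.TI.Main

/-!
# Tree-independence number at most eight (MP_c8786f_co)

Let `G` be a bridgeless multigraph with a tree decomposition such that every bag

* has independence number at most eight, or
* is covered by cliques `K_1, ..., K_m` with `min (|K_1|, 2) + ... + min (|K_m|, 2) ≤ 18`, for
  example by nine cliques (or has at most 18 vertices).

Then `G` has a nowhere-zero 5-flow, and the characteristic polynomial of its bond matroid is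
positive at all integers `q ≥ 5`.  The size of the bags and the treewidth are not bounded.  In
particular this holds if, for a set `S` of `k` vertices, `G - S` is the intersection graph of
connected sets of vertices of a graph of treewidth at most `w`, where `2 (w + 1) + k ≤ 18`; for
`k = 0` these are the region intersection graphs over the graphs of treewidth at most eight (the
chordal graphs are those over the graphs of treewidth one).

Proof.  The class is closed under contractions of edges (not under deletions): a clique cover of a
bag gives a clique cover of its image, and independent sets in the image can be lifted.  Let `G` be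
a counterexample with as few edges as possible; it has girth at least twelve, and all degrees are at
least three (apart from isolated vertices) by the library `Y335/FL` of the starting files.  In a
graph with girth at least twelve cliques have at most two vertices, and a set of 19 vertices
contains nine pairwise nonadjacent ones: remove vertices with at most one neighbour; if all degrees
are at least two and some degree is at least three take the vertices at distance 1, 3, 5 on three
legs; if all degrees are two take every second vertex of a path with eleven vertices and half of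
six other vertices, which induce a forest.  So all bags have at most 18 vertices, and there is no
such graph with treewidth at most 17 (`MP_974d84_co.TreewidthSeventeen` of the starting files).  For
regions the bag of a bag `C` of the graph `J` consists of the vertices whose regions meet `C`; it is
covered by `|C|` cliques.
-/

set_option autoImplicit false

namespace Pool.Agent.Results.MP_c8786f_co.TreeIndependenceNumber

open Pool.Agent.TH497.PW

variable {V E ι : Type}

/-- The edges with exactly one end in `X`. -/
def boundary [DecidableEq V] [Fintype E] (src dst : E → V) (X : Finset V) : Finset E :=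
  Finset.univ.filter (fun e => ¬ (src e ∈ X ↔ dst e ∈ X))

/-- Kirchhoff's law. -/
def IsFlow [DecidableEq V] [Fintype E] (src dst : E → V) (f : E → ℤ) : Prop :=
  ∀ v : V, ∑ e ∈ Finset.univ.filter (fun e => src e = v), f e
    = ∑ e ∈ Finset.univ.filter (fun e => dst e = v), f e

/-- There is an edge between `x` and `y`, and `x ≠ y`. -/
def Adjacent (src dst : E → V) (x y : V) : Prop :=
  x ≠ y ∧ ∃ e, (src e = x ∧ dst e = y) ∨ (src e = y ∧ dst e = x)

/-- The vertices in `X` (if there are any) form a connected subgraph: a nonempty subset `Y` of `X`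
such that no edge leads from `Y` to the rest of `X` is all of `X`. -/
def ConnectedSet (src dst : E → V) (X : Finset V) : Prop :=
  ∀ Y ⊆ X, Y.Nonempty → (∀ e, src e ∈ X → dst e ∈ X → (src e ∈ Y ↔ dst e ∈ Y)) → Y = X

/-- The vertices in `I` are pairwise not adjacent. -/
def Independent (src dst : E → V) (I : Finset V) : Prop :=
  ∀ x ∈ I, ∀ y ∈ I, ¬ Adjacent src dst x y

/-- The vertices in `K` are pairwise adjacent. -/
def IsCliqueSet (src dst : E → V) (K : Finset V) : Prop :=
  ∀ x ∈ K, ∀ y ∈ K, x ≠ y → Adjacent src dst x y

/-- The set `X` is covered by cliques `K_1, ..., K_m` with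
`min (|K_1|, 2) + ... + min (|K_m|, 2) ≤ w`. -/
def CoveredByCliques (src dst : E → V) (X : Finset V) (w : ℕ) : Prop :=
  ∃ (m : ℕ) (K : Fin m → Finset V), (∀ i, IsCliqueSet src dst (K i)) ∧
    (∀ x ∈ X, ∃ i, x ∈ K i) ∧ ∑ i, min (K i).card 2 ≤ w

/-- The sets `X i`, for the nodes `i` of the graph `T`, are a tree decomposition: `T` is a tree,
every vertex is in one of the sets, every edge has both ends in one of the sets, and a vertex in
`X i` and `X j` is in `X k` for all `k` on the path of `T` from `i` to `j`. -/
structure IsTreeDecomposition [DecidableEq V] (src dst : E → V) (T : SimpleGraph ι)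
    (X : ι → Finset V) : Prop where
  tree : T.IsTree
  vert : ∀ v, ∃ i, v ∈ X i
  edge : ∀ e, ∃ i, src e ∈ X i ∧ dst e ∈ X i
  path : ∀ (i j : ι) (p : T.Walk i j), p.IsPath → ∀ k ∈ p.support, X i ∩ X j ⊆ X k

/-- The number of the components of the graph with the vertices `V` and the edges `A`. -/
noncomputable def components (src dst : E → V) (A : Finset E) : ℕ :=
  Nat.card (SimpleGraph.fromRel
    (fun u v : V => ∃ e ∈ A, src e = u ∧ dst e = v)).ConnectedComponent

/-- The rank of `A` in the cycle matroid of the graph. -/
noncomputable def cycleRank [Fintype V] (src dst : E → V) (A : Finset E) : ℕ :=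
  Fintype.card V - components src dst A

/-- The rank of `A` in the bond matroid of the graph (the dual of the cycle matroid). -/
noncomputable def bondRank [Fintype V] [Fintype E] [DecidableEq E] (src dst : E → V)
    (A : Finset E) : ℕ :=
  A.card + cycleRank src dst Aᶜ - cycleRank src dst Finset.univ

/-- The characteristic polynomial of the bond matroid at the integer `x`. -/
noncomputable def bondCharPoly [Fintype V] [Fintype E] [DecidableEq E] (src dst : E → V)
    (x : ℤ) : ℤ :=
  ∑ A : Finset E, (-1) ^ A.card * x ^ (bondRank src dst Finset.univ - bondRank src dst A)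

theorem isFlow_iff [DecidableEq V] [Fintype E] (src dst : E → V) (f : E → ℤ) :
    IsFlow src dst f ↔
      ∀ v, ∑ e, f e * ((if src e = v then 1 else 0) - (if dst e = v then 1 else 0)) = 0 := by
  unfold IsFlow
  refine forall_congr' fun v => ?_
  rw [Finset.sum_filter, Finset.sum_filter, ← sub_eq_zero, ← Finset.sum_sub_distrib]
  have : ∀ e, (if src e = v then f e else 0) - (if dst e = v then f e else 0)
      = f e * ((if src e = v then 1 else 0) - (if dst e = v then 1 else 0)) := by
    intro e
    by_cases h1 : src e = v <;> by_cases h2 : dst e = v <;> simp [h1, h2]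
  rw [Finset.sum_congr rfl (fun e _ => this e)]

theorem nzf [Fintype V] [DecidableEq V] [Fintype E] [DecidableEq E] (src dst : E → V)
    (h : Pool.Agent.TH676.Z.FlowOn src dst ∅ ∅) : NZF src dst := by
  obtain ⟨f, h1, _, h3⟩ := h
  refine ⟨f, fun e => h3 e (Finset.notMem_empty _) (Finset.notMem_empty _), fun x => ?_⟩
  rw [← h1 x]
  unfold Pool.Agent.TH676.Z.bd
  refine Finset.sum_congr rfl fun e _ => ?_
  unfold ic
  by_cases h4 : src e = x <;> by_cases h5 : dst e = x <;> simp [h4, h5]

theorem charPoly_pos [Fintype V] [DecidableEq V] [Fintype E] [DecidableEq E] (src dst : E → V)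
    (f : E → ℤ) (h1 : IsFlow src dst f) (h2 : ∀ e, 1 ≤ |f e| ∧ |f e| ≤ 4) (q : ℕ) (hq : 5 ≤ q) :
    0 < bondCharPoly src dst q :=
  Pool.Agent.TH362.FP.chr_pos src dst f h2 h1 q hq

/-- the conclusion from the library theorem -/
theorem conclusion [Fintype V] [DecidableEq V] [Fintype E] [DecidableEq E] {src dst : E → V}
    (h : Pool.Agent.Q165.TI.TDP src dst (Pool.Agent.Q165.TI.Good src dst))
    (hb : ∀ Y : Finset V, (boundary src dst Y).card ≠ 1) :
    (∃ f : E → ℤ, IsFlow src dst f ∧ ∀ e, 1 ≤ |f e| ∧ |f e| ≤ 4) ∧
      ∀ q : ℕ, 5 ≤ q → 0 < bondCharPoly src dst q := by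
  have hfl := Pool.Agent.Q165.TI.flowT src dst h
    (fun Y _ => by rw [Finset.sdiff_empty]; exact hb Y)
  obtain ⟨G, hG, hG0⟩ := int_flow src dst (nzf src dst hfl)
  have hG1 := (isFlow_iff src dst G).mpr hG0
  exact ⟨⟨G, hG1, hG⟩, fun q hq => charPoly_pos src dst G hG1 hG q hq⟩

/-- **Theorem.** See the claim file. -/
theorem result :
    (∀ (V E ι : Type) [Fintype V] [DecidableEq V] [Fintype E] [DecidableEq E] [Fintype ι]
      (src dst : E → V) (T : SimpleGraph ι) (X : ι → Finset V),
      IsTreeDecomposition src dst T X →
      (∀ i, (∀ I ⊆ X i, Independent src dst I → I.card ≤ 8) ∨ CoveredByCliques src dst (X i) 18) →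
      (∀ Y : Finset V, (boundary src dst Y).card ≠ 1) →
      (∃ f : E → ℤ, IsFlow src dst f ∧ ∀ e, 1 ≤ |f e| ∧ |f e| ≤ 4) ∧
      ∀ q : ℕ, 5 ≤ q → 0 < bondCharPoly src dst q) ∧
    (∀ (V E W F ι : Type) [Fintype V] [DecidableEq V] [Fintype E] [DecidableEq E]
      [Fintype W] [DecidableEq W] [Fintype F] [DecidableEq F] [Fintype ι]
      (src dst : E → V) (s t : F → W) (T : SimpleGraph ι) (C : ι → Finset W) (S : Finset V)
      (R : V → Finset W),
      IsTreeDecomposition s t T C →
      (∀ i, 2 * (C i).card + S.card ≤ 18) →
      (∀ u, u ∉ S → (R u).Nonempty ∧ ConnectedSet s t (R u)) →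
      (∀ u v, u ∉ S → v ∉ S → u ≠ v → (Adjacent src dst u v ↔ ∃ p, p ∈ R u ∧ p ∈ R v)) →
      (∀ Y : Finset V, (boundary src dst Y).card ≠ 1) →
      (∃ f : E → ℤ, IsFlow src dst f ∧ ∀ e, 1 ≤ |f e| ∧ |f e| ≤ 4) ∧
      ∀ q : ℕ, 5 ≤ q → 0 < bondCharPoly src dst q) := by
  constructor
  · intro V E ι _ _ _ _ _ src dst T X hX hgood hb
    refine conclusion ?_ hb
    refine Pool.Agent.Q165.TI.TDP.of_tree hX.tree
      (fun i j p hp k hk v hi hj => hX.path i j p hp k hk (Finset.mem_inter.mpr ⟨hi, hj⟩))
      hX.edge (fun i => ?_)
    rcases hgood i with h | ⟨m, K, h1, h2, h3⟩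
    · exact Or.inr h
    · exact Or.inl ⟨m, K, h1, h2, h3⟩
  · intro V E W F ι _ _ _ _ _ _ _ _ _ src dst s t T C S R hC hw hR hadj hb
    refine conclusion ?_ hb
    obtain ⟨n, par, B, hn, h0, h1, h1', h2, h3⟩ := Pool.Agent.Q165.TI.num_tree hC.tree
      (fun i j p hp k hk v hi hj => hC.path i j p hp k hk (Finset.mem_inter.mpr ⟨hi, hj⟩))
      hC.edge hC.vert
    refine Pool.Agent.Q165.TI.TDP.region S hn h0 h1 h1' h2 (fun u hu => (hR u hu).1)
      (fun u hu Y hY hYn hc => (hR u hu).2 Y hY hYn (fun f => hc f (Finset.mem_univ f)))
      (fun u v hu hv huv h => (hadj u v hu hv huv).1 h) (fun i hi => ?_)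
    obtain ⟨j, hj⟩ := h3 i hi
    exact Pool.Agent.Q165.TI.good_region S
      (fun u v hu hv huv h => (hadj u v hu hv huv).2 h) (B i) (by rw [hj]; exact hw j)

end Pool.Agent.Results.MP_c8786f_co.TreeIndependenceNumber
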